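import Mathlib
import Pool.Agent.W890.SF.Stm2
import Pool.Agent.W976.SAM.Bas
import Pool.Agent.W584.SAM.ADD
import Pool.Agent.W883.SAM.Key
import Pool.Agent.W503.SAM.Ind
import Pool.Agent.W816.SAM.Uni

/-!
# Lottery: direct bound and splitting
-/

set_option autoImplicit false

namespace Pool.Agent.R736.LOT

open Finset Pool.Agent.W890.SF

/-- direct bound for small means -/
theorem direct {ι : Type} [DecidableEq ι] (b q : ι → ℝ) (x : ℝ) (S : Finset ι)
    (hx : 0 < x) (hx1 : x < 1) (hb : ∀ i ∈ S, 0 < b i ∧ 0 ≤ q i ∧ q i < 1)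
    (hbx : ∀ i ∈ S, b i * q i ≤ x) (hs : ∑ i ∈ S, b i * q i < 1) :
    min ((1 - ∑ i ∈ S, b i * q i) / ((1 - ∑ i ∈ S, b i * q i) + x))
      ((1 - x) ^ ((∑ i ∈ S, b i * q i) / x)) ≤ PU b q 1 S := by
  obtain ⟨u1, u2, u3, u4, u5⟩ := Pool.Agent.W976.SAM.bas ι b q 1 S one_pos hb
  have hI := fun w => Pool.Agent.W503.SAM.Ind.ind Pool.Agent.W976.SAM.bas Pool.Agent.W584.SAM.add
    Pool.Agent.W883.SAM.key ι b q 1 x w S one_pos hb hbx hx
  have hbq : 0 ≤ ∑ i ∈ S, b i * q i :=
    Finset.sum_nonneg fun i hi => mul_nonneg (hb i hi).1.le (hb i hi).2.1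
  generalize ∑ i ∈ S, b i * q i = σ at *
  generalize PU b q 1 S = U at u1 u2 u3 u4 hI ⊢
  generalize PG b q 1 S = G at u3 u4 u5 hI ⊢
  obtain ⟨w, hw⟩ : ∃ w : ℝ, w = G / U := ⟨_, rfl⟩
  have hwU : G = w * U := by
    rw [hw]
    field_simp
  have hw0 : 0 < w := by rw [hw]; exact div_pos u5 u1
  have hwc : w ≤ 1 := by
    rw [hw, div_le_iff₀ u1]
    exact u3
  have hwρ : 1 - σ ≤ w := by
    rw [hw, le_div_iff₀ u1]
    nlinarith
  by_cases hwx : w ≤ (1 - σ) + x
  · refine (min_le_left _ _).trans ?_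
    rw [div_le_iff₀ (by linarith)]
    calc 1 - σ ≤ G := u4
      _ = U * w := by rw [hwU, mul_comm]
      _ ≤ U * ((1 - σ) + x) := mul_le_mul_of_nonneg_left hwx u1.le
  · push Not at hwx
    have hxw : x ≤ w := by linarith
    have k1 := hI w hxw (by rw [hwU]) hwρ
    have k2 := Pool.Agent.W816.SAM.Uni.uni x (1 - σ) w hx hx1 (by linarith) hwx.le hwc
    have e : (1 - (1 - σ)) / x = σ / x := by
      congr 1
      ring
    rw [e] at k2
    refine k2.trans ?_
    rw [hwU] at k1
    exact le_of_mul_le_mul_left k1 hw0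

/-- list version of `PU` -/
noncomputable def LP : List (ℝ × ℝ) → ℝ → ℝ
  | [], c => if 0 < c then 1 else 0
  | p :: l, c => (1 - p.2) * LP l c + p.2 * LP l (c - p.1)

/-- good lists -/
def GLi (l : List (ℝ × ℝ)) : Prop := ∀ p ∈ l, 0 < p.1 ∧ 0 ≤ p.2 ∧ p.2 < 1

lemma GLi.tail {p : ℝ × ℝ} {l : List (ℝ × ℝ)} (h : GLi (p :: l)) : GLi l :=
  fun q hq => h q (List.mem_cons_of_mem _ hq)

lemma PU_insert {ι : Type} [DecidableEq ι] (b q : ι → ℝ) (c : ℝ) (T : Finset ι) (x : ι)
    (hx : x ∉ T) :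
    PU b q c (insert x T) = (1 - q x) * PU b q c T + q x * PU b q (c - b x) T := by
  unfold PU
  rw [Finset.sum_powerset_insert hx, Finset.mul_sum, Finset.mul_sum]
  congr 1
  · refine Finset.sum_congr rfl fun ω hω => ?_
    rw [Pool.Agent.W584.SAM.Wt_out q T ω x hx (Finset.mem_powerset.mp hω)]
    split_ifs <;> simp
  · refine Finset.sum_congr rfl fun ω hω => ?_
    have hω' := Finset.mem_powerset.mp hω
    rw [Pool.Agent.W584.SAM.Wt_in q T ω x hx hω', Finset.sum_insert (fun h => hx (hω' h))]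
    by_cases h : b x + ∑ i ∈ ω, b i < c
    · rw [if_pos h, if_pos (by linarith)]
    · rw [if_neg h, if_neg (by intro h'; exact h (by linarith)), mul_zero]

lemma PU_list {ι : Type} [DecidableEq ι] (b q : ι → ℝ) (l : List ι) (hl : l.Nodup) (c : ℝ) :
    PU b q c l.toFinset = LP (l.map fun i => (b i, q i)) c := by
  induction l generalizing c with
  | nil =>
    simp only [PU, LP, Wt, List.toFinset_nil, List.map_nil, Finset.powerset_empty,
      Finset.sum_singleton, Finset.sum_empty, Finset.prod_empty, Finset.sdiff_self, mul_one]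
  | cons x l ih =>
    rw [List.nodup_cons] at hl
    rw [List.toFinset_cons, PU_insert b q c _ x (by simpa using hl.1), ih hl.2, ih hl.2]
    simp [LP]

lemma LP_mono (l : List (ℝ × ℝ)) (hl : GLi l) : Monotone (LP l) := by
  induction l with
  | nil =>
    intro c c' h
    simp only [LP]
    split_ifs <;> linarith
  | cons p l ih =>
    intro c c' h
    have h1 := hl p (by simp)
    have ih' := ih hl.tail
    simp only [LP]
    have e1 := ih' h
    have e2 := ih' (show c - p.1 ≤ c' - p.1 by linarith)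
    have := h1.2.2
    exact add_le_add (mul_le_mul_of_nonneg_left e1 (by linarith))
      (mul_le_mul_of_nonneg_left e2 h1.2.1)

lemma gli_append {l l' : List (ℝ × ℝ)} (h : GLi l) (h' : GLi l') : GLi (l ++ l') := by
  intro p hp
  rcases List.mem_append.1 hp with h1 | h1
  · exact h p h1
  · exact h' p h1

lemma gli_rep {p : ℝ × ℝ} (r : ℕ) (h : 0 < p.1 ∧ 0 ≤ p.2 ∧ p.2 < 1) : GLi (List.replicate r p) := by
  intro q hq
  rw [List.eq_of_mem_replicate hq]
  exact h

lemma LP_cons_le (p : ℝ × ℝ) (l : List (ℝ × ℝ)) (hl : GLi (p :: l)) (c : ℝ) :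
    LP (p :: l) c ≤ LP l c := by
  have h1 := hl p (by simp)
  have e1 : LP l (c - p.1) ≤ LP l c := LP_mono l hl.tail (by linarith)
  simp only [LP]
  nlinarith [mul_le_mul_of_nonneg_left e1 h1.2.1]

lemma LP_rep_le (p : ℝ × ℝ) (h : 0 < p.1 ∧ 0 ≤ p.2 ∧ p.2 < 1) (l : List (ℝ × ℝ)) (hl : GLi l)
    (r : ℕ) (c : ℝ) : LP (List.replicate r p ++ l) c ≤ LP l c := by
  induction r with
  | zero => simp
  | succ r ih =>
    rw [List.replicate_succ, List.cons_append]
    refine (LP_cons_le p _ ?_ c).trans ih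
    have : GLi (List.replicate (r + 1) p ++ l) := gli_append (gli_rep _ h) hl
    rwa [List.replicate_succ, List.cons_append] at this

lemma LP_rep (p : ℝ × ℝ) (h : 0 < p.1 ∧ 0 ≤ p.2 ∧ p.2 < 1) (l : List (ℝ × ℝ)) (hl : GLi l)
    (r : ℕ) (c : ℝ) : LP (List.replicate r p ++ l) c ≤
      (1 - p.2) ^ r * LP l c + (1 - (1 - p.2) ^ r) * LP l (c - p.1) := by
  induction r with
  | zero => simp
  | succ r ih =>
    rw [List.replicate_succ, List.cons_append]
    simp only [LP]
    have e2 := LP_rep_le p h l hl r (c - p.1)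
    have h2 := h.2.2
    have h3 := mul_le_mul_of_nonneg_left ih (show 0 ≤ 1 - p.2 by linarith)
    have h4 := mul_le_mul_of_nonneg_left e2 h.2.1
    rw [pow_succ]
    linarith

lemma LP_split (r : ℕ) (L : List (ℝ × ℝ)) (hL : GLi L) (c : ℝ) :
    LP (L.flatMap fun p => List.replicate r p) c ≤
      LP (L.map fun p => (p.1, 1 - (1 - p.2) ^ r)) c := by
  induction L generalizing c with
  | nil => simp
  | cons p L ih =>
    rw [List.flatMap_cons, List.map_cons]
    have h := hL p (by simp)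
    have hG : GLi (L.flatMap fun p => List.replicate r p) := by
      intro q hq
      rw [List.mem_flatMap] at hq
      obtain ⟨a, ha, hq⟩ := hq
      rw [List.eq_of_mem_replicate hq]
      exact hL.tail a ha
    refine (LP_rep p h _ hG r c).trans ?_
    simp only [LP, sub_sub_cancel]
    have h2 := h.2.2
    have h5 : 0 ≤ (1 - p.2) ^ r := pow_nonneg (by linarith) r
    have h6 : (1 - p.2) ^ r ≤ 1 := pow_le_one₀ (by linarith) (by linarith [h.2.1])
    exact add_le_add (mul_le_mul_of_nonneg_left (ih hL.tail c) h5)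
      (mul_le_mul_of_nonneg_left (ih hL.tail (c - p.1)) (by linarith))

/-- direct bound for lists -/
theorem direct_list (L : List (ℝ × ℝ)) (hL : GLi L) (x σ : ℝ) (hx : 0 < x) (hx1 : x < 1)
    (hbx : ∀ p ∈ L, p.1 * p.2 ≤ x) (hσ : (L.map fun p => p.1 * p.2).sum ≤ σ) (hσ1 : σ < 1) :
    min ((1 - σ) / ((1 - σ) + x)) ((1 - x) ^ (σ / x)) ≤ LP L 1 := by
  have e1 : PU (fun i : Fin L.length => (L.get i).1) (fun i => (L.get i).2) 1 univ = LP L 1 := by
    have := PU_list (fun i : Fin L.length => (L.get i).1) (fun i => (L.get i).2)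
      (List.finRange L.length) (List.nodup_finRange _) 1
    rw [List.toFinset_finRange] at this
    rw [this]
    congr 1
    exact List.map_get_finRange L
  have e2 : ∑ i : Fin L.length, (L.get i).1 * (L.get i).2 = (L.map fun p => p.1 * p.2).sum := by
    rw [← List.sum_ofFn]
    congr 1
    conv_rhs => rw [← List.map_get_finRange L]
    rw [List.map_map, List.ofFn_eq_map]
    rfl
  have hs0 : 0 ≤ ∑ i : Fin L.length, (L.get i).1 * (L.get i).2 :=
    Finset.sum_nonneg fun i _ => mul_nonneg (hL _ (List.get_mem L i)).1.le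
      (hL _ (List.get_mem L i)).2.1
  have hs : ∑ i : Fin L.length, (L.get i).1 * (L.get i).2 ≤ σ := e2.trans_le hσ
  have h := direct (fun i : Fin L.length => (L.get i).1) (fun i => (L.get i).2) x univ hx hx1
    (fun i _ => hL _ (List.get_mem L i)) (fun i _ => hbx _ (List.get_mem L i)) (by linarith)
  rw [e1] at h
  refine le_trans (min_le_min ?_ ?_) h
  · change _ ≤ (1 - ∑ i : Fin L.length, (L.get i).1 * (L.get i).2) /
      (1 - ∑ i : Fin L.length, (L.get i).1 * (L.get i).2 + x)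
    generalize ∑ i : Fin L.length, (L.get i).1 * (L.get i).2 = s at hs hs0
    rw [div_le_div_iff₀ (by linarith) (by linarith)]
    nlinarith
  · exact Real.rpow_le_rpow_of_exponent_ge (by linarith) (by linarith)
      (div_le_div_of_nonneg_right hs hx.le)

end Pool.Agent.R736.LOT
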