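import Mathlib
import Pool.Agent.R736.LOT.A

/-!
# Lottery: the limit of infinite splitting
-/

set_option autoImplicit false

namespace Pool.Agent.R736.LOT

open Finset Pool.Agent.W890.SF Filter Topology

lemma one_sub_rpow_ge (x t : ℝ) (hx : 0 < x) (hx1 : x < 1) (ht : 0 ≤ t) :
    Real.exp (-(t / (1 - x))) ≤ (1 - x) ^ (t / x) := by
  have h1 : 0 < 1 - x := by linarith
  rw [Real.rpow_def_of_pos h1]
  apply Real.exp_le_exp.2
  have h2 : -(x / (1 - x)) ≤ Real.log (1 - x) := by
    have := Real.one_sub_inv_le_log_of_pos h1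
    have e : 1 - (1 - x)⁻¹ = -(x / (1 - x)) := by
      field_simp
      ring
    linarith
  calc -(t / (1 - x)) = -(x / (1 - x)) * (t / x) := by field_simp
    _ ≤ Real.log (1 - x) * (t / x) := mul_le_mul_of_nonneg_right h2 (div_nonneg ht hx.le)

/-- the inequality for `t < 1` and one splitting parameter -/
lemma split_bound {m : ℕ} (hm : 1 ≤ m) (a : Fin m → ℝ) (ha : ∀ i, 0 < a i) (t : ℝ) (ht : 0 < t)
    (ht1 : t < 1) (r : ℕ) (hr : 1 ≤ r) :
    min ((1 - t) / ((1 - t) + t / (m * r))) ((1 - t / (m * r)) ^ (t / (t / (m * r)))) ≤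
      PU (fun i => a i / m) (fun i => 1 - Real.exp (-(t / a i))) 1 univ := by
  have hm0 : (0 : ℝ) < m := by exact_mod_cast hm
  have hm1 : (1 : ℝ) ≤ m := by exact_mod_cast hm
  have hr0 : (0 : ℝ) < r := by exact_mod_cast hr
  have hr1 : (1 : ℝ) ≤ r := by exact_mod_cast hr
  have e0 : (List.finRange m).toFinset = (univ : Finset (Fin m)) := List.toFinset_finRange m
  set L : List (ℝ × ℝ) :=
    (List.finRange m).map fun i => (a i / m, 1 - Real.exp (-(t / (a i * r)))) with hL
  have hq : ∀ i, 0 ≤ 1 - Real.exp (-(t / (a i * r))) ∧ 1 - Real.exp (-(t / (a i * r))) < 1 := by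
    intro i
    have h1 : 0 < t / (a i * r) := div_pos ht (mul_pos (ha i) hr0)
    have h2 := Real.exp_pos (-(t / (a i * r)))
    have h3 : Real.exp (-(t / (a i * r))) ≤ 1 := Real.exp_le_one_iff.2 (by linarith)
    constructor <;> linarith
  have hbq : ∀ i, a i / m * (1 - Real.exp (-(t / (a i * r)))) ≤ t / (m * r) := by
    intro i
    have h1 : 1 - Real.exp (-(t / (a i * r))) ≤ t / (a i * r) := by
      have := Real.add_one_le_exp (-(t / (a i * r)))
      linarith
    have h2 := ha i
    calc a i / m * (1 - Real.exp (-(t / (a i * r)))) ≤ a i / m * (t / (a i * r)) :=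
          mul_le_mul_of_nonneg_left h1 (by positivity)
      _ = t / (m * r) := by field_simp
  have hG : GLi L := by
    intro p hp
    rw [hL, List.mem_map] at hp
    obtain ⟨i, -, rfl⟩ := hp
    exact ⟨div_pos (ha i) hm0, (hq i).1, (hq i).2⟩
  have hG2 : GLi (L.flatMap fun p => List.replicate r p) := by
    intro q hq'
    rw [List.mem_flatMap] at hq'
    obtain ⟨p, hp, hq'⟩ := hq'
    rw [List.eq_of_mem_replicate hq']
    exact hG p hp
  have hE : PU (fun i => a i / m) (fun i => 1 - Real.exp (-(t / a i))) 1 univ =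
      LP (L.map fun p => (p.1, 1 - (1 - p.2) ^ r)) 1 := by
    rw [← e0, PU_list _ _ _ (List.nodup_finRange _), hL, List.map_map]
    congr 1
    refine List.map_congr_left fun i _ => ?_
    simp only [Function.comp]
    congr 2
    rw [sub_sub_cancel, ← Real.exp_nat_mul]
    congr 1
    have := (ha i).ne'
    field_simp
  rw [hE]
  refine le_trans ?_ (LP_split r L hG 1)
  have hx0 : 0 < t / (m * r) := by positivity
  have hx1 : t / (m * r) < 1 := by
    rw [div_lt_one (by positivity)]
    nlinarith
  refine direct_list _ hG2 (t / (m * r)) t hx0 hx1 ?_ ?_ ht1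
  · intro p hp
    rw [List.mem_flatMap] at hp
    obtain ⟨p', hp', hp⟩ := hp
    rw [List.eq_of_mem_replicate hp]
    rw [hL, List.mem_map] at hp'
    obtain ⟨i, -, rfl⟩ := hp'
    exact hbq i
  · have key : ∀ l : List (ℝ × ℝ), ((l.flatMap fun p => List.replicate r p).map
        fun p => p.1 * p.2).sum = r * (l.map fun p => p.1 * p.2).sum := by
      intro l
      induction l with
      | nil => simp
      | cons p l ih =>
        rw [List.flatMap_cons, List.map_append, List.sum_append, ih]
        simp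
        ring
    rw [key, hL, List.map_map]
    have h2 : ((List.finRange m).map ((fun p : ℝ × ℝ => p.1 * p.2) ∘ fun i =>
        (a i / m, 1 - Real.exp (-(t / (a i * r)))))).sum ≤ m * (t / (m * r)) := by
      have := List.sum_le_card_nsmul ((List.finRange m).map ((fun p : ℝ × ℝ => p.1 * p.2) ∘ fun i =>
        (a i / m, 1 - Real.exp (-(t / (a i * r)))))) (t / (m * r)) (by
          intro y hy
          rw [List.mem_map] at hy
          obtain ⟨i, -, rfl⟩ := hy
          exact hbq i)
      simpa using this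
    calc (r : ℝ) * _ ≤ r * (m * (t / (m * r))) := mul_le_mul_of_nonneg_left h2 hr0.le
      _ = t := by field_simp

/-- the inequality for `t < 1` -/
lemma bound_lt {m : ℕ} (hm : 1 ≤ m) (a : Fin m → ℝ) (ha : ∀ i, 0 < a i) (t : ℝ) (ht : 0 < t)
    (ht1 : t < 1) :
    Real.exp (-t) ≤ PU (fun i => a i / m) (fun i => 1 - Real.exp (-(t / a i))) 1 univ := by
  have hm0 : (0 : ℝ) < m := by exact_mod_cast hm
  have hm1 : (1 : ℝ) ≤ m := by exact_mod_cast hm
  -- the function of `x`
  have hc : Tendsto (fun x : ℝ => min ((1 - t) / ((1 - t) + x)) (Real.exp (-(t / (1 - x)))))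
      (𝓝 0) (𝓝 (min ((1 - t) / ((1 - t) + 0)) (Real.exp (-(t / (1 - 0)))))) := by
    apply Tendsto.min
    · apply Tendsto.div tendsto_const_nhds
      · exact tendsto_const_nhds.add tendsto_id
      · linarith
    · apply (Real.continuous_exp.tendsto _).comp
      apply Tendsto.neg
      apply Tendsto.div tendsto_const_nhds
      · exact tendsto_const_nhds.sub tendsto_id
      · norm_num
  have e : min ((1 - t) / ((1 - t) + 0)) (Real.exp (-(t / (1 - 0)))) = Real.exp (-t) := by
    rw [add_zero, div_self (by linarith), sub_zero, div_one]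
    apply min_eq_right
    exact Real.exp_le_one_iff.2 (by linarith)
  rw [e] at hc
  have hx : Tendsto (fun r : ℕ => t / ((m : ℝ) * r)) atTop (𝓝 0) := by
    apply Tendsto.div_atTop tendsto_const_nhds
    exact Tendsto.const_mul_atTop hm0 tendsto_natCast_atTop_atTop
  refine le_of_tendsto (hc.comp hx) ?_
  filter_upwards [eventually_ge_atTop 1] with r hr
  have hr1 : (1 : ℝ) ≤ r := by exact_mod_cast hr
  have hx0 : 0 < t / (m * r) := by positivity
  have hx1 : t / (m * r) < 1 := by
    rw [div_lt_one (by positivity)]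
    nlinarith
  refine le_trans ?_ (split_bound hm a ha t ht ht1 r hr)
  exact min_le_min le_rfl (one_sub_rpow_ge _ _ hx0 hx1 ht.le)

/-- the inequality for `t ≤ 1` -/
theorem bound {m : ℕ} (hm : 1 ≤ m) (a : Fin m → ℝ) (ha : ∀ i, 0 < a i) (t : ℝ) (ht : 0 < t)
    (ht1 : t ≤ 1) :
    Real.exp (-t) ≤ PU (fun i => a i / m) (fun i => 1 - Real.exp (-(t / a i))) 1 univ := by
  rcases lt_or_eq_of_le ht1 with h | h
  · exact bound_lt hm a ha t ht h
  · subst h
    have hcont : Continuous fun t : ℝ =>
        PU (fun i => a i / m) (fun i => 1 - Real.exp (-(t / a i))) 1 univ := by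
      unfold PU Wt
      refine continuous_finset_sum _ fun ω _ => ?_
      by_cases h : ∑ i ∈ ω, a i / m < 1
      · simp only [if_pos h]
        refine Continuous.mul ?_ ?_
        · refine continuous_finset_prod _ fun i _ => ?_
          fun_prop
        · refine continuous_finset_prod _ fun i _ => ?_
          fun_prop
      · simp only [if_neg h]
        exact continuous_const
    have h1 : Tendsto (fun t : ℝ => Real.exp (-t)) (𝓝[<] 1) (𝓝 (Real.exp (-1))) :=
      ((Real.continuous_exp.comp continuous_neg).tendsto 1).mono_left nhdsWithin_le_nhds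
    refine le_of_tendsto_of_tendsto h1 ((hcont.tendsto 1).mono_left nhdsWithin_le_nhds) ?_
    have : Set.Ioo (0 : ℝ) 1 ∈ 𝓝[<] (1 : ℝ) := Ioo_mem_nhdsLT one_pos
    filter_upwards [this] with s hs
    exact bound_lt hm a ha s hs.1 hs.2

end Pool.Agent.R736.LOT
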